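import Mathlib

set_option autoImplicit false

namespace Pool.Agent.Results.MP_d3ad9a_lc.Nice

open Ordinal

/-- nodes of `σℚ`: strictly increasing bounded maps from a countable ordinal to `ℚ` -/
structure Node where
  len : Ordinal.{0}
  len_lt : len < ω₁
  val : Set.Iio len → ℚ
  mono : StrictMono val
  bdd : BddAbove (Set.range val)

/-- the order is extension of functions -/
instance : PartialOrder Node where
  le s t := s.len ≤ t.len ∧ ∀ (i : Ordinal.{0}) (hs : i < s.len) (ht : i < t.len),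
    s.val ⟨i, hs⟩ = t.val ⟨i, ht⟩
  le_refl _ := ⟨le_rfl, fun _ _ _ => rfl⟩
  le_trans _ _ _ h1 h2 := ⟨h1.1.trans h2.1, fun i ha hc =>
    (h1.2 i ha (ha.trans_le h1.1)).trans (h2.2 i _ hc)⟩
  le_antisymm := by
    rintro ⟨l1, a1, v1, b1, c1⟩ ⟨l2, a2, v2, b2, c2⟩ h1 h2
    obtain rfl : l1 = l2 := le_antisymm h1.1 h2.1
    obtain rfl : v1 = v2 := funext fun i => h1.2 i.1 i.2 i.2
    rfl

/-- the empty function -/
def root : Node where
  len := 0
  len_lt := omega_pos 1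
  val := fun _ => 0
  mono := fun i => absurd i.2 (by simp)
  bdd := ⟨0, by rintro _ ⟨i, rfl⟩; exact le_rfl⟩

/-- immediate successors -/
def Succ (t : Node) : Set Node := {s | t < s ∧ s.len = t.len + 1}

def Special (X : Set Node) : Prop :=
  ∃ A : ℕ → Set Node, (∀ n, IsAntichain (· ≤ ·) (A n)) ∧ X = ⋃ n, A n

def Nonstationary (X : Set Node) : Prop :=
  ∃ f : X → Node, (∀ x : X, ¬ IsMin x.1 → f x < x.1) ∧
    ∀ t : Node, Special (Subtype.val '' (f ⁻¹' {t}))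

def Diamond : Prop :=
  ∃ D : Node → Set Node, (∀ t, D t ⊆ Set.Iio t) ∧
    ∀ X : Set Node, ¬ Nonstationary {t | X ∩ Set.Iio t = D t}

def IsSuccPartition (Q : Node → Fin 2 → Set Node) : Prop :=
  ∀ t, Disjoint (Q t 0) (Q t 1) ∧ Q t 0 ∪ Q t 1 = Succ t

/-- `S` is the subtree `T(Q, f)` -/
def IsTQ (Q : Node → Fin 2 → Set Node) (f : Node → Fin 2) (S : Set Node) : Prop :=
  IsLowerSet S ∧ root ∈ S ∧ (∀ t ∈ S, Succ t ∩ S = Q t (f t)) ∧
    ∀ t : Node, Order.IsSuccLimit t.len → (∀ s < t, s ∈ S) → t ∈ S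

def IsNice (Q : Node → Fin 2 → Set Node) : Prop :=
  ∀ f : Node → Fin 2, (∃ S, IsTQ Q f S) ∧ ∀ S, IsTQ Q f S → ¬ Special S

/-! ### basic facts -/

lemma le_def {s t : Node} : s ≤ t ↔ s.len ≤ t.len ∧
    ∀ (i : Ordinal.{0}) (hs : i < s.len) (ht : i < t.len), s.val ⟨i, hs⟩ = t.val ⟨i, ht⟩ := Iff.rfl

lemma len_lt_of_lt {s t : Node} (h : s < t) : s.len < t.len := by
  refine lt_of_le_of_ne h.le.1 fun e => h.not_ge ⟨e.ge, fun i a b => (h.le.2 i b a).symm⟩

lemma lt_of_le_of_len {s t : Node} (h : s ≤ t) (h' : s.len < t.len) : s < t :=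
  lt_of_le_of_ne h fun e => h'.ne (e ▸ rfl)

lemma le_of_len {s s' t : Node} (h : s ≤ t) (h' : s' ≤ t) (hl : s.len ≤ s'.len) : s ≤ s' :=
  ⟨hl, fun i a b => (h.2 i a (a.trans_le h.1)).trans (h'.2 i b _).symm⟩

lemma root_le (t : Node) : root ≤ t := ⟨zero_le, fun i a _ => absurd a (by simp [root])⟩

noncomputable def snoc (t : Node) (r : ℚ) (h : ∀ i, t.val i < r) : Node where
  len := t.len + 1
  len_lt := (Cardinal.isSuccLimit_omega 1).succ_lt t.len_lt
  val := fun i => if hi : i.1 < t.len then t.val ⟨i.1, hi⟩ else r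
  mono := by
    intro i j hij
    have hij' : i.1 < j.1 := hij
    have hj : j.1 ≤ t.len := Order.lt_add_one_iff.1 j.2
    have hi : i.1 < t.len := hij'.trans_le hj
    simp only [hi, dif_pos]
    split_ifs with h'
    · exact t.mono hij'
    · exact h _
  bdd := ⟨r, by
    rintro _ ⟨i, rfl⟩
    simp only
    split_ifs
    · exact (h _).le
    · exact le_rfl⟩

lemma lt_snoc (t : Node) (r : ℚ) (h : ∀ i, t.val i < r) : t < snoc t r h :=
  lt_of_le_of_len ⟨(Order.lt_add_one_iff.2 le_rfl).le, fun i a _ => by simp [snoc, a]⟩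
    (Order.lt_add_one_iff.2 le_rfl)

def restr (t : Node) (β : Ordinal.{0}) (h : β ≤ t.len) : Node where
  len := β
  len_lt := h.trans_lt t.len_lt
  val := fun i => t.val ⟨i.1, i.2.trans_le h⟩
  mono := fun _ _ hij => t.mono hij
  bdd := by
    obtain ⟨b, hb⟩ := t.bdd
    exact ⟨b, by rintro _ ⟨i, rfl⟩; exact hb ⟨_, rfl⟩⟩

lemma restr_le (t : Node) (β : Ordinal.{0}) (h : β ≤ t.len) : restr t β h ≤ t :=
  ⟨h, fun _ _ _ => rfl⟩

def Bd (t : Node) (q : ℚ) : Prop := ∃ p < q, ∀ i, t.val i ≤ p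

lemma limit (t : ℕ → Node) (ht : StrictMono t) (q : ℚ) (hq : ∀ k i, (t k).val i ≤ q) :
    ∃ u : Node, Order.IsSuccLimit u.len ∧ (∀ k, t k ≤ u) ∧ (∀ s < u, ∃ k, s ≤ t k) ∧
      ∀ p, (∀ k i, (t k).val i ≤ p) → ∀ i, u.val i ≤ p := by
  have hb : BddAbove (Set.range fun k => (t k).len) := Ordinal.bddAbove_of_small
  have hex : ∀ i : Set.Iio (⨆ k, (t k).len), ∃ k, i.1 < (t k).len := fun i =>
    (lt_ciSup_iff hb).1 i.2
  choose κ hκ using hex
  have hcompat : ∀ k l i (a : i < (t k).len) (b : i < (t l).len),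
      (t k).val ⟨i, a⟩ = (t l).val ⟨i, b⟩ := by
    intro k l i a b
    rcases le_total k l with h | h
    · exact (ht.monotone h).2 i a b
    · exact ((ht.monotone h).2 i b a).symm
  let u : Node :=
    { len := ⨆ k, (t k).len
      len_lt := Ordinal.iSup_lt_omega_one fun k => (t k).len_lt
      val := fun i => (t (κ i)).val ⟨i.1, hκ i⟩
      mono := by
        intro i j hij
        have hij' : i.1 < j.1 := hij
        simp only
        rw [hcompat (κ i) (κ j) i.1 (hκ i) (hij'.trans (hκ j))]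
        exact (t (κ j)).mono hij'
      bdd := ⟨q, by rintro _ ⟨i, rfl⟩; exact hq _ _⟩ }
  have h1 : ∀ k, t k ≤ u := fun k => ⟨le_ciSup hb k, fun i a b => hcompat _ _ i a _⟩
  refine ⟨u, ?_, h1, fun s hs => ?_, fun p hp i => hp _ _⟩
  · have hlt : ∀ k, (t k).len < u.len := fun k =>
      (len_lt_of_lt (ht (Nat.lt_succ_self k))).trans_le (h1 _).1
    refine ⟨fun h => (hlt 0).not_ge (h (hlt 0).le), Order.isSuccPrelimit_of_succ_lt ?_⟩
    intro a ha
    obtain ⟨k, hk⟩ := (lt_ciSup_iff hb).1 ha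
    exact (Order.succ_le_of_lt hk).trans_lt (hlt k)
  · obtain ⟨k, hk⟩ := (lt_ciSup_iff hb).1 (len_lt_of_lt hs)
    exact ⟨k, le_of_len hs.le (h1 k) hk.le⟩

lemma nonspecial (S : Set Node) (h1 : IsLowerSet S) (h2 : root ∈ S)
    (h3 : ∀ t ∈ S, ∀ q, Bd t q → ∃ s ∈ S, t < s ∧ Bd s q)
    (h4 : ∀ t : Node, Order.IsSuccLimit t.len → (∀ s < t, s ∈ S) → t ∈ S)
    (A : ℕ → Set Node) (hA : ∀ n, IsAntichain (· ≤ ·) (A n))
    (hS : ∀ t ∈ S, t ≠ root → ∃ n, t ∈ A n) : False := by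
  have step : ∀ (k : ℕ) (x : {x : Node × ℚ // x.1 ∈ S ∧ Bd x.1 x.2}),
      ∃ y : {x : Node × ℚ // x.1 ∈ S ∧ Bd x.1 x.2}, x.1.1 < y.1.1 ∧ y.1.2 < x.1.2 ∧
        ∀ z ∈ A k, z ∈ S → x.1.1 ≤ z → Bd z x.1.2 → ∃ w ∈ A k, w < y.1.1 := by
    rintro k ⟨⟨t, q⟩, ht, hq⟩
    by_cases h : ∃ z ∈ A k, z ∈ S ∧ t ≤ z ∧ Bd z q
    · obtain ⟨z, z1, z2, z3, z4⟩ := h
      obtain ⟨s, s1, s2, p, hp, s3⟩ := h3 z z2 q z4
      obtain ⟨q', hq1, hq2⟩ := exists_between hp
      exact ⟨⟨(s, q'), s1, p, hq1, s3⟩, z3.trans_lt s2, hq2, fun _ _ _ _ _ => ⟨z, z1, s2⟩⟩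
    · obtain ⟨s, s1, s2, p, hp, s3⟩ := h3 t ht q hq
      obtain ⟨q', hq1, hq2⟩ := exists_between hp
      exact ⟨⟨(s, q'), s1, p, hq1, s3⟩, s2, hq2, fun z a b c d => absurd ⟨z, a, b, c, d⟩ h⟩
  choose F F1 F2 F3 using step
  let x : ℕ → {x : Node × ℚ // x.1 ∈ S ∧ Bd x.1 x.2} := fun k =>
    Nat.rec ⟨(root, 1), h2, 0, by norm_num, fun _ => le_rfl⟩ F k
  have hx : ∀ k, x (k + 1) = F k (x k) := fun _ => rfl
  have m1 : StrictMono fun k => (x k).1.1 := strictMono_nat_of_lt_succ fun k => F1 k (x k)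
  have m2 : StrictAnti fun k => (x k).1.2 := strictAnti_nat_of_succ_lt fun k => F2 k (x k)
  have hb : ∀ j k i, (x k).1.1.val i ≤ (x j).1.2 := by
    intro j k i
    obtain ⟨p, hp, hp'⟩ := (x (max j k)).2.2
    have h := m1.monotone (le_max_right j k)
    rw [h.2 i.1 i.2 (i.2.trans_le h.1)]
    exact (hp' _).trans (hp.le.trans (m2.antitone (le_max_left j k)))
  obtain ⟨u, u1, u2, u3, u4⟩ := limit _ m1 _ (hb 0)
  have hu : u ∈ S := h4 u u1 fun s hs => by
    obtain ⟨k, hk⟩ := u3 s hs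
    exact h1 hk (x k).2.1
  obtain ⟨n, hn⟩ := hS u hu (fun e => by
    have := (m1 (Nat.lt_succ_self 0)).trans_le (u2 1)
    rw [e] at this
    exact this.not_ge (root_le _))
  obtain ⟨w, w1, w2⟩ := F3 n (x n) u hn hu (u2 n) ⟨_, F2 n (x n), u4 _ (hb (n + 1))⟩
  have : w < u := w2.trans_le (u2 (n + 1))
  exact hA n w1 hn this.ne this.le

def col (r : ℚ) : Fin 2 := if Even r.den then 0 else 1

lemma col_dense (a b : ℚ) (h : a < b) (c : Fin 2) : ∃ r, a < r ∧ r < b ∧ col r = c := by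
  obtain ⟨n, hn⟩ := exists_nat_gt (2 / (b - a))
  have hpos : 0 < b - a := sub_pos.2 h
  have hn' : 2 < (b - a) * n := by rwa [div_lt_iff₀' hpos] at hn
  set N : ℕ := 2 * n + 1 with hN
  have hN0 : (0 : ℚ) < N := by positivity
  have hN1 : 2 < (b - a) * N := by
    have : (n : ℚ) ≤ N := by rw [hN]; push_cast; linarith [Nat.cast_nonneg (α := ℚ) n]
    nlinarith
  have f1 := Int.lt_floor_add_one (a * N)
  have f2 := Int.floor_le (a * N)
  set m : ℤ := ⌊a * N⌋ + 1 with hm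
  have g1 : a * N < m := by rw [hm]; push_cast; exact f1
  have g2 : (m : ℚ) ≤ a * N + 1 := by rw [hm]; push_cast; linarith
  fin_cases c
  · refine ⟨(2 * m + 1) / (2 * N), ?_, ?_, ?_⟩
    · rw [lt_div_iff₀ (by positivity)]; linarith
    · rw [div_lt_iff₀ (by positivity)]; linarith
    · set r : ℚ := (2 * m + 1) / (2 * N) with hr
      have e : r * r.den = r.num := Rat.mul_den_eq_num r
      have e2 : (2 * m + 1) * (r.den : ℚ) = 2 * N * r.num := by
        rw [← e, hr]; field_simp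
      have e3 : (2 * m + 1) * (r.den : ℤ) = 2 * N * r.num := by exact_mod_cast e2
      have : Even (r.den : ℤ) := by
        have h2 : Even ((2 * m + 1) * (r.den : ℤ)) := ⟨N * r.num, by rw [e3]; ring⟩
        exact (Int.even_mul.1 h2).resolve_left (by simp)
      simp [col, (Int.even_coe_nat _).1 this]
  · refine ⟨m / N, ?_, ?_, ?_⟩
    · rw [lt_div_iff₀ hN0]; linarith
    · rw [div_lt_iff₀ hN0]; linarith
    · have hd : ((m / N : ℚ).den : ℤ) ∣ (N : ℤ) := by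
        have := Rat.den_dvd m N
        rwa [Rat.divInt_eq_div] at this
      have hd' : (m / N : ℚ).den ∣ N := Int.natCast_dvd_natCast.1 hd
      have : ¬ Even (m / N : ℚ).den := fun he => by
        have := he.trans_dvd hd'
        rw [hN] at this
        simp at this
      simp [col, this]

def Q0 (t : Node) (c : Fin 2) : Set Node :=
  {s | s ∈ Succ t ∧ ∀ h : t.len < s.len, col (s.val ⟨t.len, h⟩) = c}

def S0 (f : Node → Fin 2) : Set Node :=
  {t | ∀ s (h : s < t), col (t.val ⟨s.len, len_lt_of_lt h⟩) = f s}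

lemma part : IsSuccPartition Q0 := by
  intro t
  constructor
  · rw [Set.disjoint_left]
    rintro s ⟨h1, h2⟩ ⟨-, h3⟩
    have := (h2 (len_lt_of_lt h1.1)).symm.trans (h3 _)
    simp at this
  · ext s
    constructor
    · rintro (h | h) <;> exact h.1
    · intro h
      have : ∀ c : Fin 2, c = 0 ∨ c = 1 := by decide
      rcases this (col (s.val ⟨t.len, len_lt_of_lt h.1⟩)) with e | e
      · exact Or.inl ⟨h, fun _ => e⟩
      · exact Or.inr ⟨h, fun _ => e⟩

lemma isTQ (f : Node → Fin 2) : IsTQ Q0 f (S0 f) := by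
  refine ⟨?_, ?_, ?_, ?_⟩
  · intro t u hu ht s hs
    rw [hu.2 _ _ (len_lt_of_lt (hs.trans_le hu))]
    exact ht s (hs.trans_le hu)
  · intro s hs
    exact absurd (root_le s) hs.not_ge
  · intro t ht
    ext u
    constructor
    · rintro ⟨h1, h2⟩
      exact ⟨h1, fun _ => h2 t h1.1⟩
    · rintro ⟨h1, h2⟩
      refine ⟨h1, fun s hs => ?_⟩
      have hl : s.len ≤ t.len := Order.lt_add_one_iff.1 (h1.2 ▸ len_lt_of_lt hs)
      rcases (le_of_len hs.le h1.1.le hl).lt_or_eq with h | h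
      · rw [← h1.1.le.2 _ (len_lt_of_lt h)]
        exact ht s h
      · subst h
        exact h2 _
  · intro t ht h s hs
    have h1 : s.len + 1 < t.len := ht.succ_lt (len_lt_of_lt hs)
    have h2 : restr t _ h1.le < t := lt_of_le_of_len (restr_le _ _ _) h1
    have h3 : s < restr t _ h1.le := lt_of_le_of_len
      (le_of_len hs.le h2.le (Order.lt_add_one_iff.2 le_rfl).le) (Order.lt_add_one_iff.2 le_rfl)
    exact h _ h2 s h3

lemma core (f : Node → Fin 2) (S : Set Node) (h : IsTQ Q0 f S)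
    (A : ℕ → Set Node) (hA : ∀ n, IsAntichain (· ≤ ·) (A n))
    (hS : ∀ t ∈ S, t ≠ root → ∃ n, t ∈ A n) : False := by
  refine nonspecial S h.1 h.2.1 ?_ h.2.2.2 A hA hS
  rintro t ht q ⟨p, hp, hp'⟩
  obtain ⟨r, r1, r2, r3⟩ := col_dense p q hp (f t)
  have hr : ∀ i, t.val i < r := fun i => (hp' i).trans_lt r1
  have : snoc t r hr ∈ Q0 t (f t) := ⟨⟨lt_snoc _ _ _, rfl⟩, fun _ => by simpa [snoc] using r3⟩
  rw [← h.2.2.1 t ht] at this
  refine ⟨_, this.2, lt_snoc _ _ _, r, r2, fun i => ?_⟩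
  simp only [snoc]
  split_ifs
  · exact (hr _).le
  · exact le_rfl

/-- `σℚ` has a nice successor-partition, and the diamond principle holds on `σℚ`. -/
theorem result : (∃ Q, IsSuccPartition Q ∧ IsNice Q) ∧ Diamond := by
  classical
  constructor
  · refine ⟨Q0, part, fun f => ⟨⟨_, isTQ f⟩, ?_⟩⟩
    rintro S hS ⟨A, hA, e⟩
    exact core f S hS A hA fun t ht _ => by simpa [e] using ht
  · refine ⟨fun t => {s | ∃ h : s < t, col (t.val ⟨s.len, len_lt_of_lt h⟩) = 1},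
      fun t s hs => hs.1, ?_⟩
    rintro X ⟨g, g1, g2⟩
    choose A hA hA' using g2
    obtain ⟨e, he⟩ := exists_surjective_nat (ℚ × ℕ)
    refine core (fun s => if s ∈ X then 1 else 0) _ (isTQ _)
      (fun k => {x | ∃ s, ∃ h : s < x, x.val ⟨s.len, len_lt_of_lt h⟩ = (e k).1 ∧ x ∈ A s (e k).2})
      ?_ ?_
    · rintro k x ⟨s, h, a1, a2⟩ y ⟨s', h', b1, b2⟩ hne hxy
      rw [hxy.2 _ _ (len_lt_of_lt (h.trans_le hxy)), ← b1] at a1
      have e1 : s.len = s'.len := congrArg Subtype.val (y.mono.injective a1)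
      have e2 : s = s' := le_antisymm (le_of_len (h.le.trans hxy) h'.le e1.le)
        (le_of_len h'.le (h.le.trans hxy) e1.ge)
      subst e2
      exact hA s _ a2 b2 hne hxy
    · intro t ht hne
      have hmem : t ∈ {t : Node | X ∩ Set.Iio t =
          {s | ∃ h : s < t, col (t.val ⟨s.len, len_lt_of_lt h⟩) = 1}} := by
        ext s
        constructor
        · rintro ⟨h1, h2⟩
          exact ⟨h2, by rw [ht s h2]; simp [h1]⟩
        · rintro ⟨h1, h2⟩
          refine ⟨?_, h1⟩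
          rw [ht s h1] at h2
          by_contra h
          simp [h] at h2
      have hlt := g1 ⟨t, hmem⟩ (fun h => hne (le_antisymm (h (root_le t)) (root_le t)))
      have : t ∈ ⋃ n, A (g ⟨t, hmem⟩) n := hA' _ ▸ ⟨⟨t, hmem⟩, rfl, rfl⟩
      obtain ⟨n, hn⟩ := Set.mem_iUnion.1 this
      obtain ⟨k, hk⟩ := he (t.val ⟨_, len_lt_of_lt hlt⟩, n)
      exact ⟨k, _, hlt, by rw [hk], by rw [hk]; exact hn⟩

end Pool.Agent.Results.MP_d3ad9a_lc.Nice
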